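import Pool.Agent.Q73.PW.Stm2

/-!
# Test functions below a continuous weight
-/

set_option autoImplicit false
open MeasureTheory Filter Topology Real
open scoped ContDiff ENNReal Manifold

namespace Pool.Agent.H234.MM

open Pool.Agent.Results.MP_a52643_an.AbsoluteContinuity (lapl LocL2 Test)

noncomputable section

/-- the measure with density `g` on `D` -/
def W (D : Set ℂ) (g : ℂ → ℝ) : Measure ℂ :=
  (volume.restrict D).withDensity fun z => ENNReal.ofReal (g z)

lemma W_fin {D : Set ℂ} {g : ℂ → ℝ} (hi : IntegrableOn g D) : IsFiniteMeasure (W D g) :=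
  isFiniteMeasure_withDensity_ofReal hi.2

/-- a test function below `g`, close in the mean -/
lemma approx {D : Set ℂ} (hD : IsOpen D) {g : ℂ → ℝ} (hg : ContinuousOn g D)
    (hi : IntegrableOn g D) {ε : ℝ} (hε : 0 < ε) :
    ∃ χ : ℂ → ℝ, Test {z | z ∈ D ∧ 0 < g z} χ ∧ (∀ z, 0 < χ z → χ z < g z) ∧
      ∫ z in {z | z ∈ D ∧ 0 < g z}, (g z - χ z) ≤ ε := by
  obtain ⟨G, hG⟩ : ∃ G : Set ℂ, G = {z | z ∈ D ∧ 0 < g z} := ⟨_, rfl⟩
  have oG : IsOpen G := by
    have := hg.isOpen_inter_preimage hD isOpen_Ioi (t := Set.Ioi 0)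
    rw [hG]; exact this
  have GD : G ⊆ D := by rw [hG]; exact fun z hz => hz.1
  have gp : ∀ z ∈ G, 0 < g z := by rw [hG]; exact fun z hz => hz.2
  have iG : IntegrableOn g G := hi.mono_set GD
  rw [← hG]
  have fin := W_fin iG
  obtain ⟨K, hKG, hK, hKm⟩ := oG.measurableSet.exists_isCompact_sdiff_lt (μ := W G g)
    (measure_ne_top _ _) (ε := ENNReal.ofReal (ε / 2)) (by simpa using hε)
  obtain ⟨δ, hδ, hδG⟩ := hK.exists_cthickening_subset_open oG hKG
  obtain ⟨f, hf1, hf2, hf3⟩ := exists_contMDiff_support_eq_eq_one_iff (modelWithCornersSelf ℝ ℂ)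
    (n := ((⊤ : ℕ∞))) (Metric.isOpen_thickening (δ := δ) (E := K)) hK.isClosed
    (Metric.self_subset_thickening hδ K)
  have hs : tsupport f ⊆ Metric.cthickening δ K := by
    apply closure_minimal _ Metric.isClosed_cthickening
    rw [hf3.1]
    exact Metric.thickening_subset_cthickening _ _
  obtain ⟨K', hK'⟩ : ∃ K' : Set ℂ, K' = Metric.cthickening δ K := ⟨_, rfl⟩
  rw [← hK'] at hs hδG
  have cK' : IsCompact K' := by rw [hK']; exact hK.cthickening
  have KK' : K ⊆ K' := by rw [hK']; exact Metric.self_subset_cthickening K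
  -- the area of `K`
  obtain ⟨η, hη⟩ : ∃ η, η = ε / (2 * ((volume K).toReal + 1)) := ⟨_, rfl⟩
  have η0 : 0 < η := by rw [hη]; positivity
  obtain ⟨q, hq⟩ := exists_contMDiffMap_forall_mem_convex_of_local_const (modelWithCornersSelf ℝ ℂ)
    (n := (⊤ : ℕ∞)) (F := ℝ) (t := fun z => {y : ℝ | z ∈ K' → y ∈ Set.Ioo (max 0 (g z - η)) (g z)})
    (fun z => by
      by_cases hz : z ∈ K'
      · have e : {y : ℝ | z ∈ K' → y ∈ Set.Ioo (max 0 (g z - η)) (g z)} =
            Set.Ioo (max 0 (g z - η)) (g z) := by
          ext y; exact ⟨fun h => h hz, fun h _ => h⟩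
        show Convex ℝ {y : ℝ | z ∈ K' → y ∈ Set.Ioo (max 0 (g z - η)) (g z)}
        rw [e]
        exact convex_Ioo _ _
      · have e : {y : ℝ | z ∈ K' → y ∈ Set.Ioo (max 0 (g z - η)) (g z)} = Set.univ := by
          ext y; exact ⟨fun _ => Set.mem_univ _, fun _ h => absurd h hz⟩
        show Convex ℝ {y : ℝ | z ∈ K' → y ∈ Set.Ioo (max 0 (g z - η)) (g z)}
        rw [e]
        exact convex_univ)
    (fun z => by
      by_cases hz : z ∈ K'
      · have zG := hδG hz
        have cg : ContinuousAt g z := (hg.mono GD).continuousAt (oG.mem_nhds zG)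
        have g0 := gp z zG
        obtain ⟨c, hc1, hc2⟩ := exists_between (show max 0 (g z - η) < g z from
          max_lt g0 (by linarith))
        have h1 : ∀ᶠ y in 𝓝 z, c < g y := cg.eventually (lt_mem_nhds hc2)
        have h2 : ∀ᶠ y in 𝓝 z, max 0 (g y - η) < c := by
          have : ContinuousAt (fun y => max 0 (g y - η)) z :=
            continuousAt_const.max (cg.sub continuousAt_const)
          exact this.eventually (gt_mem_nhds hc1)
        refine ⟨c, ?_⟩
        filter_upwards [h1, h2] with y a b
        exact fun _ => ⟨b, a⟩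
      · refine ⟨0, ?_⟩
        filter_upwards [cK'.isClosed.isOpen_compl.mem_nhds hz] with y hy
        exact fun h => absurd h hy)
  have hq' : ∀ z ∈ K', max 0 (g z - η) < q z ∧ q z < g z := fun z hz => hq z hz
  have sq : ContDiff ℝ ∞ (fun z => q z) := q.contMDiff.contDiff
  have f0 : ∀ z, 0 ≤ f z := fun z => (hf2 ⟨z, rfl⟩).1
  have f1 : ∀ z, f z ≤ 1 := fun z => (hf2 ⟨z, rfl⟩).2
  have fz : ∀ z, z ∉ K' → f z = 0 := fun z hz => image_eq_zero_of_notMem_tsupport fun h => hz (hs h)
  have χ0 : ∀ z, 0 ≤ f z * q z := by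
    intro z
    by_cases hz : z ∈ K'
    · have := (hq' z hz).1
      exact mul_nonneg (f0 z) ((le_max_left _ _).trans this.le)
    · rw [fz z hz, zero_mul]
  have χK : ∀ z ∈ K, g z - f z * q z ≤ η := by
    intro z hz
    rw [(hf3.2 z).1 hz, one_mul]
    have := (le_max_right _ _).trans (hq' z (KK' hz)).1.le
    linarith
  have ts : tsupport (fun z => f z * q z) ⊆ tsupport f := by
    have := tsupport_mul_subset_left (f := f) (g := fun z => q z)
    exact this
  refine ⟨fun z => f z * q z, ⟨hf1.contDiff.mul sq, ?_, (ts.trans hs).trans hδG, χ0⟩, fun z hz => ?_, ?_⟩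
  · exact cK'.of_isClosed_subset (isClosed_tsupport _) (ts.trans hs)
  · by_cases hz' : z ∈ K'
    · have h1 := (hq' z hz').1
      have h2 := (hq' z hz').2
      have h3 : 0 < q z := (le_max_left _ _).trans_lt h1
      have := f1 z
      show f z * q z < g z
      nlinarith
    · have hz2 : 0 < f z * q z := hz
      rw [fz z hz', zero_mul] at hz2
      exact absurd hz2 (lt_irrefl 0)
  · have iχ : IntegrableOn (fun z => f z * q z) G := by
      have : Continuous fun z => f z * q z := (hf1.contDiff.mul sq).continuous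
      exact (this.integrable_of_hasCompactSupport
        (cK'.of_isClosed_subset (isClosed_tsupport _) (ts.trans hs))).integrableOn
    have id : IntegrableOn (fun z => g z - f z * q z) G := iG.sub iχ
    have KG : K ⊆ G := hKG
    have e1 : ∫ z in G, (g z - f z * q z) =
        (∫ z in K, (g z - f z * q z)) + ∫ z in G \ K, (g z - f z * q z) := by
      have h1 := setIntegral_union (μ := volume) (f := fun z => g z - f z * q z)
        (Set.disjoint_sdiff_right (s := K) (t := G)) (oG.measurableSet.diff hK.measurableSet)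
        (id.mono_set KG) (id.mono_set Set.sdiff_subset)
      rw [Set.union_sdiff_cancel KG] at h1
      exact h1
    have e2 : ∫ z in K, (g z - f z * q z) ≤ ε / 2 := by
      have : ∫ z in K, (g z - f z * q z) ≤ ∫ z in K, η := by
        refine setIntegral_mono_on (id.mono_set KG) (integrableOn_const hK.measure_lt_top.ne)
          hK.measurableSet χK
      rw [setIntegral_const, smul_eq_mul] at this
      refine this.trans ?_
      rw [hη]
      have h0 : 0 ≤ (volume K).toReal := ENNReal.toReal_nonneg
      show (volume K).toReal * (ε / (2 * ((volume K).toReal + 1))) ≤ ε / 2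
      rw [mul_div_assoc', div_le_div_iff₀ (by positivity) (by norm_num)]
      nlinarith
    have e3 : ∫ z in G \ K, (g z - f z * q z) ≤ ε / 2 := by
      have mGK : MeasurableSet (G \ K) := oG.measurableSet.diff hK.measurableSet
      have iGK : IntegrableOn g (G \ K) := iG.mono_set Set.sdiff_subset
      have h1 : ∫ z in G \ K, (g z - f z * q z) ≤ ∫ z in G \ K, g z := by
        refine integral_mono (id.mono_set Set.sdiff_subset) iGK fun z => ?_
        have := χ0 z
        simp only
        linarith
      refine h1.trans ?_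
      have h2 : ∫ z in G \ K, g z = ((W G g) (G \ K)).toReal := by
        unfold W
        rw [withDensity_apply _ mGK, Measure.restrict_restrict mGK,
          Set.inter_eq_left.2 Set.sdiff_subset]
        rw [integral_eq_lintegral_of_nonneg_ae _ iGK.1]
        refine (ae_restrict_iff' mGK).2 (ae_of_all _ fun z hz => (gp z hz.1).le)
      rw [h2]
      exact ENNReal.toReal_le_of_le_ofReal (by positivity) hKm.le
    rw [e1]
    linarith

end

end Pool.Agent.H234.MM
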