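import Pool.Agent.H234.MM.Approx
import Pool.Agent.Q73.PW.All
import Pool.Agent.Q73.PW.Pow

/-!
# Plane waves are extremal: plane domains with a conformal metric and a weight
-/

set_option autoImplicit false
open MeasureTheory Filter Topology Real
open scoped ContDiff ENNReal Manifold

namespace Pool.Agent.H234.MM

open Pool.Agent.Q73.PW
open Pool.Agent.Results.MP_a52643_an.AbsoluteContinuity (lapl LocL2 Test)

noncomputable section

/-- the hypotheses: metric `ρ |dz|²`, weight `ψ` -/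
structure WDom (D : Set ℂ) (ρ ψ : ℂ → ℝ) (lam : ℕ → ℝ) (u : ℕ → ℂ → ℝ) (B : ℝ) : Prop where
  o : IsOpen D
  sρ : ContDiffOn ℝ ∞ ρ D
  ρ0 : ∀ z ∈ D, 0 < ρ z
  hlam : Tendsto lam atTop atTop
  sm : ∀ n, ContDiffOn ℝ ∞ (u n) D
  eq : ∀ n, ∀ z ∈ D, lapl (u n) z + lam n * (ρ z * u n z) = 0
  cψ : ContinuousOn ψ D
  ψ0 : ∀ z ∈ D, 0 ≤ ψ z
  iψ : IntegrableOn (fun z => ψ z * ρ z) D
  int : ∀ n, IntegrableOn (fun z => ψ z * ρ z * u n z ^ 2) D
  bd : ∀ n, ∫ z in D, ψ z * ρ z * u n z ^ 2 ≤ B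

lemma tst {G : Set ℂ} (hG : IsOpen G) {χ ρ : ℂ → ℝ} (hχ : Test G χ) (sρ : ContDiffOn ℝ ∞ ρ G)
    (ρ0 : ∀ z ∈ G, 0 < ρ z) : Test G (fun z => χ z / ρ z) := by
  have z0 : ∀ z, z ∉ G → χ z = 0 := fun z hz =>
    image_eq_zero_of_notMem_tsupport fun h => hz (hχ.2.2.1 h)
  have hsup : Function.support (fun z => χ z / ρ z) ⊆ Function.support χ := by
    intro z hz hz'
    apply hz
    show χ z / ρ z = 0
    rw [hz', zero_div]
  have hts : tsupport (fun z => χ z / ρ z) ⊆ tsupport χ := closure_mono hsup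
  refine ⟨?_, ?_, hts.trans hχ.2.2.1, fun z => ?_⟩
  · rw [contDiff_iff_contDiffAt]
    intro z
    by_cases hz : z ∈ tsupport χ
    · have zG : z ∈ G := hχ.2.2.1 hz
      have h1 : ContDiffAt ℝ ∞ ρ z := (sρ z zG).contDiffAt (hG.mem_nhds zG)
      exact hχ.1.contDiffAt.div h1 (ρ0 z zG).ne'
    · have h1 : (tsupport χ)ᶜ ∈ 𝓝 z := (isClosed_tsupport χ).isOpen_compl.mem_nhds hz
      have h2 : (fun z => χ z / ρ z) =ᶠ[𝓝 z] fun _ => 0 := by
        filter_upwards [h1] with y hy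
        rw [image_eq_zero_of_notMem_tsupport hy, zero_div]
      exact contDiffAt_const.congr_of_eventuallyEq h2
  · exact hχ.2.1.of_isClosed_subset (isClosed_tsupport _) hts
  · by_cases hz : z ∈ G
    · exact div_nonneg (hχ.2.2.2 z) (ρ0 z hz).le
    · show 0 ≤ χ z / ρ z
      rw [z0 z hz, zero_div]

section

variable {D : Set ℂ} {g : ℂ → ℝ}

lemma W_ae (hD : IsOpen D) (g0 : ∀ z ∈ D, 0 ≤ g z) :
    ∀ᵐ z ∂(volume.restrict D), (ENNReal.ofReal (g z)).toReal = g z :=
  (ae_restrict_iff' hD.measurableSet).2 (ae_of_all _ fun z hz => ENNReal.toReal_ofReal (g0 z hz))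

lemma W_int (hD : IsOpen D) (cg : ContinuousOn g D) (g0 : ∀ z ∈ D, 0 ≤ g z) (F : ℂ → ℝ) :
    ∫ z, F z ∂(W D g) = ∫ z in D, g z * F z := by
  have m : AEMeasurable (fun z => ENNReal.ofReal (g z)) (volume.restrict D) :=
    (cg.aemeasurable hD.measurableSet).ennreal_ofReal
  unfold W
  rw [integral_withDensity_eq_integral_toReal_smul₀ m (ae_of_all _ fun z => ENNReal.ofReal_lt_top)]
  refine integral_congr_ae ?_
  filter_upwards [W_ae hD g0] with z hz
  rw [hz, smul_eq_mul]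

lemma W_intg (hD : IsOpen D) (cg : ContinuousOn g D) (g0 : ∀ z ∈ D, 0 ≤ g z) (F : ℂ → ℝ) :
    Integrable F (W D g) ↔ IntegrableOn (fun z => g z * F z) D := by
  have m : AEMeasurable (fun z => ENNReal.ofReal (g z)) (volume.restrict D) :=
    (cg.aemeasurable hD.measurableSet).ennreal_ofReal
  unfold W
  rw [integrable_withDensity_iff_integrable_smul₀' m (ae_of_all _ fun z => ENNReal.ofReal_lt_top)]
  refine integrable_congr ?_
  filter_upwards [W_ae hD g0] with z hz
  rw [hz, smul_eq_mul]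

lemma W_meas (hD : IsOpen D) {F : ℂ → ℝ} (cF : ContinuousOn F D) : AEStronglyMeasurable F (W D g) :=
  (cF.aestronglyMeasurable hD.measurableSet).mono_ac (withDensity_absolutelyContinuous _ _)

end

variable {D : Set ℂ} {ρ ψ : ℂ → ℝ} {lam : ℕ → ℝ} {u : ℕ → ℂ → ℝ} {B : ℝ}

lemma WDom.cg (h : WDom D ρ ψ lam u B) : ContinuousOn (fun z => ψ z * ρ z) D :=
  h.cψ.mul h.sρ.continuousOn

lemma WDom.g0 (h : WDom D ρ ψ lam u B) : ∀ z ∈ D, 0 ≤ ψ z * ρ z := fun z hz =>
  mul_nonneg (h.ψ0 z hz) (h.ρ0 z hz).le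

lemma WDom.oG (h : WDom D ρ ψ lam u B) : IsOpen {z | z ∈ D ∧ 0 < ψ z * ρ z} := by
  have := h.cg.isOpen_inter_preimage h.o isOpen_Ioi (t := Set.Ioi 0)
  exact this

lemma WDom.seq (h : WDom D ρ ψ lam u B) : Seq {z | z ∈ D ∧ 0 < ψ z * ρ z} ρ lam u := by
  have GD : {z | z ∈ D ∧ 0 < ψ z * ρ z} ⊆ D := fun z hz => hz.1
  refine ⟨h.oG, h.sρ.mono GD, fun z hz => h.ρ0 z hz.1, h.hlam, fun n => (h.sm n).mono GD,
    fun n z hz => h.eq n z hz.1, fun K hK hKG => ?_⟩
  rcases K.eq_empty_or_nonempty with rfl | ne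
  · exact ⟨0, Eventually.of_forall fun n => by simp⟩
  obtain ⟨z0, hz0, hmin⟩ := hK.exists_isMinOn ne (h.cg.mono (hKG.trans GD))
  obtain ⟨m, hm⟩ : ∃ m, m = ψ z0 * ρ z0 := ⟨_, rfl⟩
  have m0 : 0 < m := by rw [hm]; exact (hKG hz0).2
  refine ⟨B / m, Eventually.of_forall fun n => ?_⟩
  have iK : IntegrableOn (fun z => u n z ^ 2) K :=
    (((h.sm n).continuousOn.mono (hKG.trans GD)).pow 2).integrableOn_compact hK
  have iK2 : IntegrableOn (fun z => ψ z * ρ z * u n z ^ 2) K := (h.int n).mono_set (hKG.trans GD)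
  rw [le_div_iff₀ m0, mul_comm, ← integral_const_mul]
  refine (setIntegral_mono_on (iK.const_mul m) iK2 hK.measurableSet fun z hz => ?_).trans
    ((setIntegral_mono_set (h.int n) ?_ (ae_of_all _ (hKG.trans GD))).trans (h.bd n))
  · have h1 : m ≤ ψ z * ρ z := by
      rw [hm]; exact hmin hz
    have := sq_nonneg (u n z)
    show m * u n z ^ 2 ≤ ψ z * ρ z * u n z ^ 2
    gcongr
  · exact (ae_restrict_iff' h.o.measurableSet).2 (ae_of_all _ fun z hz =>
      mul_nonneg (h.g0 z hz) (sq_nonneg _))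

/-- **Comparison with plane waves for all `Φ`.** -/
theorem WDom.cmp (h : WDom D ρ ψ lam u B) :
    Gl.Cmp (W D fun z => ψ z * ρ z) Set.univ u := by
  obtain ⟨g, hg⟩ : ∃ g : ℂ → ℝ, g = fun z => ψ z * ρ z := ⟨_, rfl⟩
  have cg : ContinuousOn g D := by rw [hg]; exact h.cg
  have g0 : ∀ z ∈ D, 0 ≤ g z := by rw [hg]; exact h.g0
  have ig : IntegrableOn g D := by rw [hg]; exact h.iψ
  have sq := h.seq
  have iu : ∀ n, IntegrableOn (fun z => g z * u n z ^ 2) D := by rw [hg]; exact h.int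
  have ub : ∀ n, ∫ z in D, g z * u n z ^ 2 ≤ B := by rw [hg]; exact h.bd
  rw [← hg]
  have eG : {z | z ∈ D ∧ 0 < ψ z * ρ z} = {z | z ∈ D ∧ 0 < g z} := by rw [hg]
  rw [eG] at sq
  obtain ⟨G, hG⟩ : ∃ G : Set ℂ, G = {z | z ∈ D ∧ 0 < g z} := ⟨_, rfl⟩
  have GD : G ⊆ D := by rw [hG]; exact fun z hz => hz.1
  have fin := W_fin ig
  intro Φ L hΦ m0 m1 η hη
  refine Gl.glue (μ := W D g) (D := Set.univ) (measure_ne_top _ _) (B := B) (fun n => ?_) (fun n => ?_)
    (fun n => ?_) hΦ m0 a2 (fun ε hε => ?_) hη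
  · rw [Measure.restrict_univ]
    exact W_meas h.o (h.sm n).continuousOn
  · rw [integrableOn_univ, W_intg h.o cg g0]
    exact iu n
  · rw [Measure.restrict_univ, W_int h.o cg g0]
    exact ub n
  · obtain ⟨χ, hχ, χg, hχε⟩ := approx h.o cg ig hε
    rw [← hG] at hχ hχε sq
    have z0 : ∀ z, z ∉ G → χ z = 0 := fun z hz =>
      image_eq_zero_of_notMem_tsupport fun h => hz (hχ.2.2.1 h)
    have gG : ∀ z ∈ G, 0 < g z := by rw [hG]; exact fun z hz => hz.2
    have gz : ∀ z ∈ D, z ∉ G → g z = 0 := by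
      intro z hz hz'
      rw [hG] at hz'
      by_contra hne
      exact hz' ⟨hz, lt_of_le_of_ne (g0 z hz) (Ne.symm hne)⟩
    have hG' : IsOpen G := sq.hΩ
    obtain ⟨w, hw⟩ : ∃ w : ℂ → ℝ, w = G.indicator (fun z => χ z / g z) := ⟨_, rfl⟩
    have mw : Measurable w := by
      classical
      have h1 : Measurable (G.piecewise (fun z => χ z / g z) 0) := by
        refine ContinuousOn.measurable_piecewise ?_ continuousOn_const hG'.measurableSet
        exact hχ.1.continuous.continuousOn.div (cg.mono GD) fun z hz => (gG z hz).ne'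
      rw [Set.piecewise_eq_indicator] at h1
      rw [hw]; exact h1
    have w0 : ∀ z, 0 ≤ w z := by
      intro z
      rw [hw]
      refine Set.indicator_nonneg (fun z hz => ?_) z
      exact div_nonneg (hχ.2.2.2 z) (gG z hz).le
    have w1 : ∀ z, w z ≤ 1 := by
      intro z
      rw [hw]
      by_cases hz : z ∈ G
      · rw [Set.indicator_of_mem hz, div_le_one (gG z hz)]
        rcases (hχ.2.2.2 z).eq_or_lt with h0 | h0
        · rw [← h0]; exact (gG z hz).le
        · exact (χg z h0).le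
      · rw [Set.indicator_of_notMem hz]; exact zero_le_one
    have gw : ∀ z ∈ D, g z * w z = χ z := by
      intro z hz
      rw [hw]
      by_cases hz' : z ∈ G
      · rw [Set.indicator_of_mem hz']
        have := gG z hz'
        field_simp
      · rw [Set.indicator_of_notMem hz', z0 z hz', mul_zero]
    have key : ∀ F : ℂ → ℝ, ∫ z, w z * F z ∂(W D g) = ∫ z, χ z * F z := by
      intro F
      rw [W_int h.o cg g0, Bil.out (hχ := (⟨hχ.1, hχ.2.1, hχ.2.2.1.trans GD, hχ.2.2.2⟩ : Test D χ))]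
      refine setIntegral_congr_fun h.o.measurableSet fun z hz => ?_
      show g z * (w z * F z) = χ z * F z
      rw [← mul_assoc, gw z hz]
    have key1 : ∫ z, w z ∂(W D g) = ∫ z, χ z := by
      have := key fun _ => 1
      simpa only [mul_one] using this
    have key2 : ∀ F : ℂ → ℝ, ∫ z, χ z / ρ z * ρ z * F z = ∫ z, χ z * F z := by
      intro F
      congr 1; funext z
      by_cases hz : z ∈ G
      · have := (h.ρ0 z (GD hz)).ne'
        field_simp
      · rw [z0 z hz]; simp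
    have key3 : ∫ z, χ z / ρ z * ρ z = ∫ z, χ z := by
      have := key2 fun _ => 1
      simpa only [mul_one] using this
    refine ⟨1, fun _ => w, fun _ => mw, fun _ => w0, fun x => by simpa using w1 x, ?_, fun j η hη => ?_⟩
    · rw [Measure.restrict_univ]
      simp only [Finset.univ_unique, Finset.sum_singleton]
      rw [W_int h.o cg g0]
      refine le_trans (le_of_eq ?_) hχε
      rw [← setIntegral_eq_of_subset_of_forall_sdiff_eq_zero h.o.measurableSet GD (f := fun z => g z - χ z)]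
      · refine setIntegral_congr_fun h.o.measurableSet fun z hz => ?_
        show g z * (1 - w z) = g z - χ z
        rw [mul_sub, gw z hz, mul_one]
      · intro z hz
        rw [gz z hz.1 hz.2, z0 z hz.2, sub_zero]
    · have := (all13 G ρ lam u sq _ (tst hG' hχ (h.sρ.mono GD) fun z hz => h.ρ0 z (GD hz)) η hη).2.2
        Φ L hΦ m0 m1
      filter_upwards [this] with n hn
      rw [Measure.restrict_univ, key1, key, key]
      rw [key3, key2, key2] at hn
      exact hn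

end

end Pool.Agent.H234.MM
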